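import Pool.Agent.TH847.TW.Main

/-!
Simultaneous non-vanishing of two quadratic twists fails for sign reasons.

For `Δ = q ∏ (1 - q^n)^24`, the newform of weight `12` and level `1`, the sign of the functional
equation of `L(s, Δ ⊗ ψ)` is `ψ(-1)` for every real primitive character `ψ`. So if `χ` is an odd
quadratic character, one of `L(1/2, Δ ⊗ ψ)`, `L(1/2, Δ ⊗ χψ)` vanishes for every `ψ`. The same holds
for all cusp forms of level `1`, and for all eigenforms of the Fricke involution on `Γ₀(M)`, `M` prime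
(for example for the newforms attached to elliptic curves of prime conductor), and all odd quadratic
`χ` with `χ(M) = 1`.
-/

set_option autoImplicit false

open Complex Pool.Agent.TH847.TW
open UpperHalfPlane hiding I
open scoped Real MatrixGroups

noncomputable section

namespace Pool.Agent.Results.MP_d17ed7_nt.OppositeSigns

/-- `L(1/2, f ⊗ ψ) L(1/2, f ⊗ χψ) = 0`, where `χψ` is the primitive character which induces the
product; both `L`-functions exist (they are unique by `IsTwistedL.unique`). -/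
def ProductVanishes (k : ℤ) (f : ℍ → ℂ) {N q : ℕ} (χ : DirichletCharacter ℂ N)
    (ψ : DirichletCharacter ℂ q) : Prop :=
  (∃ L : ℂ → ℂ, IsTwistedL k f ψ L) ∧ (∃ L : ℂ → ℂ, IsTwistedL k f (χ.primitive_mul ψ) L) ∧
    ∀ L₁ L₂ : ℂ → ℂ, IsTwistedL k f ψ L₁ → IsTwistedL k f (χ.primitive_mul ψ) L₂ →
      L₁ (1 / 2) * L₂ (1 / 2) = 0

lemma of_pair {k : ℤ} {f : ℍ → ℂ} {N q : ℕ} {χ : DirichletCharacter ℂ N}
    {ψ : DirichletCharacter ℂ q}
    (h : ∃ L₁ L₂ : ℂ → ℂ, IsTwistedL k f ψ L₁ ∧ IsTwistedL k f (χ.primitive_mul ψ) L₂ ∧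
      L₁ (1 / 2) * L₂ (1 / 2) = 0) : ProductVanishes k f χ ψ := by
  obtain ⟨L₁, L₂, h1, h2, h3⟩ := h
  refine ⟨⟨L₁, h1⟩, ⟨L₂, h2⟩, fun L₁' L₂' h1' h2' => ?_⟩
  rw [h1'.unique h1, h2'.unique h2, h3]

lemma inv_one {k : ℤ} (f : CuspForm 𝒮ℒ k) : Inv 1 k f := fun γ _ z =>
  SlashInvariantForm.slash_action_eqn'' (Γ := 𝒮ℒ) f (MonoidHom.mem_range.mpr ⟨γ, rfl⟩) z

lemma fricke_one {k : ℤ} (f : CuspForm 𝒮ℒ k) : Fricke 1 k 1 f := by
  intro z
  have h := inv_one f ModularGroup.S (by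
    rw [CongruenceSubgroup.Gamma0_mem]
    exact Subsingleton.elim _ _) z
  have h1 : frickePt 1 z = ModularGroup.S • z := by
    rw [UpperHalfPlane.ext_iff, UpperHalfPlane.modular_S_smul]
    show -1 / (((1 : ℕ) : ℂ) * z) = (-(z : ℂ))⁻¹
    have := z.ne_zero
    push_cast
    rw [one_mul, inv_neg, neg_div, one_div]
  rw [h1, h, ModularGroup.denom_S]
  simp

lemma inv_Gamma0 {M : ℕ} {k : ℤ}
    (f : CuspForm ((CongruenceSubgroup.Gamma0 M).map (Matrix.SpecialLinearGroup.mapGL ℝ)) k) :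
    Inv M k f := fun _ hγ z =>
  SlashInvariantForm.slash_action_eqn_SL'' f hγ z

/-- the quadratic character modulo `3` -/
def chi3 : DirichletCharacter ℂ 3 := (quadraticChar (ZMod 3)).ringHomComp (Int.castRingHom ℂ)

lemma two_not_sq : ¬ IsSquare (2 : ZMod 3) := by
  rintro ⟨y, hy⟩
  revert hy
  revert y
  decide

lemma chi3_two : chi3 2 = -1 := by
  have : Fact (Nat.Prime 3) := ⟨by norm_num⟩
  show ((quadraticChar (ZMod 3) 2 : ℤ) : ℂ) = -1
  rw [quadraticChar_neg_one_iff_not_isSquare.mpr two_not_sq]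
  simp

lemma chi3_odd : chi3.Odd := by
  show chi3 (-1) = -1
  have : (-1 : ZMod 3) = 2 := by decide
  rw [this, chi3_two]

lemma chi3_sq : chi3 ^ 2 = 1 := by
  have : Fact (Nat.Prime 3) := ⟨by norm_num⟩
  exact ((quadraticChar_isQuadratic (ZMod 3)).comp (Int.castRingHom ℂ)).sq_eq_one

lemma chi3_ne : chi3 ≠ 1 := by
  intro h
  have h2 : chi3 2 = 1 := by
    rw [h]
    exact MulChar.one_apply (IsUnit.of_mul_eq_one 2 (by decide))
  rw [chi3_two] at h2
  norm_num at h2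

lemma chi3_prim : chi3.IsPrimitive := by
  have h1 : chi3.conductor ∣ 3 := DirichletCharacter.conductor_dvd_level chi3
  rcases (Nat.dvd_prime (by norm_num)).1 h1 with h | h
  · exact absurd (DirichletCharacter.eq_one_iff_conductor_eq_one.2 h) chi3_ne
  · exact h

/-- **Negative answer to Q1.** -/
theorem result :
    -- the newform `Δ` of weight 12 and level 1, and the quadratic character modulo 3
    (chi3.IsPrimitive ∧ chi3 ^ 2 = 1 ∧ chi3 ≠ 1 ∧
      ∀ (q : ℕ) [NeZero q] (ψ : DirichletCharacter ℂ q), ψ.IsPrimitive → ψ ^ 2 = 1 →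
        ProductVanishes 12 CuspForm.discriminant chi3 ψ) ∧
    -- all cusp forms of level 1, all odd quadratic characters
    (∀ (k : ℤ), 0 < k → ∀ (f : CuspForm 𝒮ℒ k) (N : ℕ) [NeZero N] (χ : DirichletCharacter ℂ N),
      χ.IsPrimitive → χ ^ 2 = 1 → χ.Odd →
      ∀ (q : ℕ) [NeZero q] (ψ : DirichletCharacter ℂ q), ψ.IsPrimitive → ψ ^ 2 = 1 →
        ProductVanishes k f χ ψ) ∧
    -- all Fricke eigenforms of prime level `M`, all odd quadratic characters with `χ(M) = 1`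
    (∀ (M : ℕ) [NeZero M], M.Prime → ∀ (k : ℤ), 0 < k →
      ∀ (f : CuspForm ((CongruenceSubgroup.Gamma0 M).map (Matrix.SpecialLinearGroup.mapGL ℝ)) k)
        (w : ℂ), w ≠ 0 → Fricke M k w f →
      ∀ (N : ℕ) [NeZero N] (χ : DirichletCharacter ℂ N),
      χ.IsPrimitive → χ ^ 2 = 1 → χ.Odd → χ M = 1 →
      ∀ (q : ℕ) [NeZero q] (ψ : DirichletCharacter ℂ q), ψ.IsPrimitive → ψ ^ 2 = 1 →
        ProductVanishes k f χ ψ) := by
  have hA : ∀ (k : ℤ), 0 < k → ∀ (f : CuspForm 𝒮ℒ k) (N : ℕ) [NeZero N]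
      (χ : DirichletCharacter ℂ N), χ.IsPrimitive → χ ^ 2 = 1 → χ.Odd →
      ∀ (q : ℕ) [NeZero q] (ψ : DirichletCharacter ℂ q), ψ.IsPrimitive → ψ ^ 2 = 1 →
        ProductVanishes k f χ ψ := by
    intro k hk f N _ χ hχ hχ2 hχo q _ ψ hψ h2
    exact of_pair (pair_vanish (Subgroup.strictWidthInfty_SL2Z) hk f (M := 1) (Or.inl rfl)
      (inv_one f) one_ne_zero (fricke_one f) hχ2 hχo (by simp) hχ hψ h2)
  refine ⟨?_, hA, ?_⟩
  · exact ⟨chi3_prim, chi3_sq, chi3_ne, fun q _ ψ hψ h2 =>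
      hA 12 (by norm_num) CuspForm.discriminant 3 chi3 chi3_prim chi3_sq chi3_odd q ψ hψ h2⟩
  · intro M _ hM k hk f w hw0 hw N _ χ hχ hχ2 hχo hχM q _ ψ hψ h2
    exact of_pair (pair_vanish (CongruenceSubgroup.strictWidthInfty_Gamma0 M) hk f (Or.inr hM)
      (inv_Gamma0 f) hw0 hw hχ2 hχo hχM hχ hψ h2)

end Pool.Agent.Results.MP_d17ed7_nt.OppositeSigns
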